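import Pool.Agent.W448.FF.Stmts

/-! R1: the one-sided robust sink lemma. -/

set_option autoImplicit false

namespace Pool.Agent.W591.FF

open Finset Pool.Agent.W448.FF

section
variable {V : Type} (G : OG V) (w : V → ℝ)

theorem o_nonneg (u v : V) : 0 ≤ o G u v := by unfold o; split_ifs <;> norm_num
theorem o_le_one (u v : V) : o G u v ≤ 1 := by unfold o; split_ifs <;> norm_num
theorem nn_nonneg (u v : V) : 0 ≤ nn G u v := by unfold nn; split_ifs <;> norm_num
theorem nn_le_one (u v : V) : nn G u v ≤ 1 := by unfold nn; split_ifs <;> norm_num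

theorem adj_symm {u v : V} : G.adj u v ↔ G.adj v u := by unfold OG.adj; tauto

theorem nn_symm (u v : V) : nn G u v = nn G v u := by
  unfold nn
  by_cases h : G.adj u v
  · simp [h, (adj_symm G).1 h]
  · have h' : ¬ G.adj v u := fun h2 => h ((adj_symm G).1 h2)
    simp [h, h']

/-- the pointwise inequality of the quadruples -/
theorem quad (hG : NoC4 G) (a1 a2 b1 b2 : V) :
    o G a1 b1 * o G a2 b2 ≤
      (o G a1 b1 * o G a2 b2) * ((1 - nn G a1 a2) + (1 - o G b1 a2) + (1 - o G b2 a1)) +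
        (1 - nn G b1 b2) * (o G a1 b1 * o G b2 a1) := by
  have h1 := hG a1 b1 a2 b2
  unfold o nn
  by_cases h11 : G.arc a1 b1 <;> by_cases h22 : G.arc a2 b2 <;> by_cases ha : G.adj a1 a2 <;>
    by_cases h12 : G.arc b1 a2 <;> by_cases h21 : G.arc b2 a1 <;> by_cases hb : G.adj b1 b2 <;>
    simp [h11, h22, ha, h12, h21, hb]
  exact absurd (h1 h11 h12 h22 h21) (by tauto)

theorem dI_nonneg (hw : ∀ v, 0 ≤ w v) (A : Finset V) : 0 ≤ dI G w A := by
  unfold dI
  refine sum_nonneg fun u _ => sum_nonneg fun v _ => ?_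
  exact mul_nonneg (mul_nonneg (hw u) (hw v)) (sub_nonneg.2 (nn_le_one G u v))

theorem dI_mono (hw : ∀ v, 0 ≤ w v) {A B : Finset V} (h : A ⊆ B) : dI G w A ≤ dI G w B := by
  unfold dI
  have hp : ∀ u v, 0 ≤ w u * w v * (1 - nn G u v) := fun u v =>
    mul_nonneg (mul_nonneg (hw u) (hw v)) (sub_nonneg.2 (nn_le_one G u v))
  calc ∑ u ∈ A, ∑ v ∈ A, w u * w v * (1 - nn G u v)
      ≤ ∑ u ∈ A, ∑ v ∈ B, w u * w v * (1 - nn G u v) :=
        sum_le_sum fun u _ => sum_le_sum_of_subset_of_nonneg h fun v _ _ => hp u v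
    _ ≤ ∑ u ∈ B, ∑ v ∈ B, w u * w v * (1 - nn G u v) :=
        sum_le_sum_of_subset_of_nonneg h fun u _ _ => sum_nonneg fun v _ => hp u v

/-- the pairs separated by a vertex weigh at most half of all the adjacent pairs -/
theorem half (hw : ∀ v, 0 ≤ w v) (C : Finset V) (a : V) :
    ∑ b1 ∈ C, ∑ b2 ∈ C, w b1 * w b2 * ((1 - nn G b1 b2) * (o G a b1 * o G b2 a)) ≤
      dI G w C / 2 := by
  have hsw : ∑ b1 ∈ C, ∑ b2 ∈ C, w b1 * w b2 * ((1 - nn G b1 b2) * (o G a b1 * o G b2 a)) =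
      ∑ b1 ∈ C, ∑ b2 ∈ C, w b1 * w b2 * ((1 - nn G b1 b2) * (o G a b2 * o G b1 a)) := by
    rw [sum_comm]
    refine sum_congr rfl fun x _ => sum_congr rfl fun y _ => ?_
    rw [nn_symm G y x, mul_comm (w y) (w x)]
  have hadd : ∑ b1 ∈ C, ∑ b2 ∈ C, w b1 * w b2 * ((1 - nn G b1 b2) * (o G a b1 * o G b2 a)) +
      ∑ b1 ∈ C, ∑ b2 ∈ C, w b1 * w b2 * ((1 - nn G b1 b2) * (o G a b2 * o G b1 a)) ≤
        dI G w C := by
    unfold dI
    rw [← sum_add_distrib]
    refine sum_le_sum fun x _ => ?_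
    rw [← sum_add_distrib]
    refine sum_le_sum fun y _ => ?_
    rw [← mul_add, ← mul_add]
    have h1 : o G a x * o G y a + o G a y * o G x a ≤ 1 := by
      have e1 := G.asymm a x
      have e2 := G.asymm a y
      unfold o
      by_cases h11 : G.arc a x <;> by_cases h22 : G.arc y a <;> by_cases h3 : G.arc a y <;>
        by_cases h4 : G.arc x a <;> simp [h11, h22, h3, h4]
      all_goals tauto
    have h2 : 0 ≤ w x * w y := mul_nonneg (hw x) (hw y)
    have h3 : 0 ≤ 1 - nn G x y := sub_nonneg.2 (nn_le_one G x y)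
    calc w x * w y * ((1 - nn G x y) * (o G a x * o G y a + o G a y * o G x a))
        ≤ w x * w y * ((1 - nn G x y) * 1) := by
          exact mul_le_mul_of_nonneg_left (mul_le_mul_of_nonneg_left h1 h3) h2
      _ = w x * w y * (1 - nn G x y) := by ring
  linarith

end

open Classical in
theorem r1 : S_R1 := by
  intro V _ G w hG hw A B L b0 τ hAB hLB hτ hA hb0 hBL hL
  set t : ℝ := ∑ v ∈ L, w v with ht
  set m : ℝ := ∑ a ∈ A, w a * nn G b0 a with hm
  have hm0 : 0 ≤ m := sum_nonneg fun a _ => mul_nonneg (hw a) (nn_nonneg G b0 a)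
  have hdA : 0 ≤ dI G w A := dI_nonneg G w hw A
  have hdB : 0 ≤ dI G w B := dI_nonneg G w hw B
  rcases hL.eq_or_lt with hLe | hLt
  · rw [hLe, sub_self]
    simp only [ne_eq, OfNat.ofNat_ne_zero, not_false_eq_true, zero_pow, zero_mul]
    linarith
  set s : ℝ := τ - t with hs
  have hs0 : 0 < s := sub_pos.2 hLt
  set X : Finset V := A.filter (fun a => G.arc b0 a) with hX
  set C : Finset V := B \ L with hC
  set W : ℝ := ∑ a ∈ X, w a with hW
  have hWyo : W = yo G w A b0 := by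
    rw [hW, hX, sum_filter]
    unfold yo o
    refine sum_congr rfl fun a _ => ?_
    split_ifs <;> simp
  have hWτ : τ ≤ W := hWyo ▸ hb0
  have hW0 : 0 < W := lt_of_lt_of_le hτ hWτ
  set y : V → ℝ := fun a => ∑ b ∈ C, w b * o G a b with hy
  have hys : ∀ a ∈ X, s ≤ y a := by
    intro a ha
    have haA : a ∈ A := (mem_filter.1 ha).1
    have h1 := hA a haA
    have h2 : yo G w B a = ∑ b ∈ C, w b * o G a b + ∑ b ∈ L, w b * o G a b := by
      unfold yo
      rw [hC, sum_sdiff hLB]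
    have h3 : ∑ b ∈ L, w b * o G a b ≤ t :=
      sum_le_sum fun b _ => mul_le_of_le_one_right (hw b) (o_le_one G a b)
    have h4 : y a = ∑ b ∈ C, w b * o G a b := rfl
    linarith
  have hy0 : ∀ a ∈ X, 0 < y a := fun a ha => lt_of_lt_of_le hs0 (hys a ha)
  -- the bound of the missing weights
  set q : V → ℝ := fun a => ∑ a' ∈ A \ X, w a' * (1 - nn G a a') with hq
  have hS : ∀ a ∈ X, ∀ b ∈ C, G.arc a b → ∑ a' ∈ X, w a' * (1 - o G b a') ≤ q a + m := by
    intro a ha b hb hab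
    have hbB : b ∈ B := (mem_sdiff.1 hb).1
    have hbL : b ∉ L := (mem_sdiff.1 hb).2
    obtain ⟨hnadj, hle⟩ := hBL b hbB hbL
    have haA : a ∈ A := (mem_filter.1 ha).1
    have hb0a : G.arc b0 a := (mem_filter.1 ha).2
    have hXA : X ⊆ A := filter_subset _ _
    have e1 : yo G w A b = ∑ a' ∈ A \ X, w a' * o G b a' + ∑ a' ∈ X, w a' * o G b a' := by
      unfold yo
      rw [sum_sdiff hXA]
    have e2 : ∑ a' ∈ X, w a' * (1 - o G b a') = W - ∑ a' ∈ X, w a' * o G b a' := by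
      rw [hW, ← sum_sub_distrib]
      exact sum_congr rfl fun a' _ => by ring
    have e3 : ∑ a' ∈ A \ X, w a' * o G b a' ≤ q a + ∑ a' ∈ A \ X, w a' * nn G b0 a' := by
      rw [hq, ← sum_add_distrib]
      refine sum_le_sum fun a' ha' => ?_
      rw [← mul_add]
      refine mul_le_mul_of_nonneg_left ?_ (hw a')
      have ha'A : a' ∈ A := (mem_sdiff.1 ha').1
      have ha'X : ¬ G.arc b0 a' := fun h => (mem_sdiff.1 ha').2 (mem_filter.2 ⟨ha'A, h⟩)
      have hc := hG b0 a b a' hb0a hab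
      unfold o nn
      by_cases h1 : G.arc b a'
      · by_cases h2 : G.adj b0 a'
        · have h3 : G.arc a' b0 := by
            rcases h2 with h2 | h2
            · exact absurd h2 ha'X
            · exact h2
          have h4 : G.adj a a' := by
            rcases hc h1 h3 with h | h
            · exact absurd h hnadj
            · exact h
          simp [h1, h2, h4]
        · by_cases h4 : G.adj a a' <;> simp [h1, h2, h4]
      · by_cases h2 : G.adj b0 a' <;> by_cases h4 : G.adj a a' <;> simp [h1, h2, h4]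
    have e4 : ∑ a' ∈ A \ X, w a' * nn G b0 a' ≤ m :=
      sum_le_sum_of_subset_of_nonneg sdiff_subset fun a' _ _ =>
        mul_nonneg (hw a') (nn_nonneg G b0 a')
    rw [e2]
    have e5 : W ≤ yo G w A b := hWyo ▸ hle
    linarith
  -- the averages
  set h : V → V → ℝ := fun a1 a2 => (∑ b ∈ C, w b * o G a1 b * (1 - o G b a2)) / y a1 with hh
  have hsumh : ∀ a1 ∈ X, ∑ a2 ∈ X, w a2 * h a1 a2 ≤ q a1 + m := by
    intro a1 ha1
    have e1 : ∑ a2 ∈ X, w a2 * h a1 a2 =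
        (∑ b ∈ C, w b * o G a1 b * ∑ a2 ∈ X, w a2 * (1 - o G b a2)) / y a1 := by
      simp only [hh]
      rw [sum_div]
      simp only [sum_div, mul_sum]
      rw [sum_comm]
      refine sum_congr rfl fun b _ => ?_
      exact sum_congr rfl fun a2 _ => by ring
    rw [e1, div_le_iff₀ (hy0 a1 ha1)]
    have e2 : (q a1 + m) * y a1 = ∑ b ∈ C, w b * o G a1 b * (q a1 + m) := by
      simp only [hy]
      rw [← sum_mul]
      ring
    rw [e2]
    refine sum_le_sum fun b hb => ?_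
    by_cases hab : G.arc a1 b
    · exact mul_le_mul_of_nonneg_left (hS a1 ha1 b hb hab)
        (mul_nonneg (hw b) (o_nonneg G a1 b))
    · have : o G a1 b = 0 := by unfold o; simp [hab]
      simp [this]
  set δ : ℝ := dI G w B / (2 * s ^ 2) with hδ
  have hpair : ∀ a1 ∈ X, ∀ a2 ∈ X, 1 ≤ (1 - nn G a1 a2) + h a1 a2 + h a2 a1 + δ := by
    intro a1 ha1 a2 ha2
    have y1 := hy0 a1 ha1
    have y2 := hy0 a2 ha2
    have key : y a1 * y a2 ≤ y a1 * y a2 * (1 - nn G a1 a2) +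
        (∑ b ∈ C, w b * o G a1 b * (1 - o G b a2)) * y a2 +
        (∑ b ∈ C, w b * o G a2 b * (1 - o G b a1)) * y a1 +
        ∑ b1 ∈ C, ∑ b2 ∈ C, w b1 * w b2 * ((1 - nn G b1 b2) * (o G a1 b1 * o G b2 a1)) := by
      have l1 : y a1 * y a2 = ∑ b1 ∈ C, ∑ b2 ∈ C, w b1 * w b2 * (o G a1 b1 * o G a2 b2) := by
        simp only [hy]
        rw [sum_mul_sum]
        exact sum_congr rfl fun b1 _ => sum_congr rfl fun b2 _ => by ring
      have l2 : y a1 * y a2 * (1 - nn G a1 a2) = ∑ b1 ∈ C, ∑ b2 ∈ C,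
          w b1 * w b2 * (o G a1 b1 * o G a2 b2) * (1 - nn G a1 a2) := by
        rw [l1, sum_mul]
        exact sum_congr rfl fun b1 _ => by rw [sum_mul]
      have l3 : (∑ b ∈ C, w b * o G a1 b * (1 - o G b a2)) * y a2 = ∑ b1 ∈ C, ∑ b2 ∈ C,
          w b1 * w b2 * (o G a1 b1 * o G a2 b2) * (1 - o G b1 a2) := by
        simp only [hy]
        rw [sum_mul_sum]
        exact sum_congr rfl fun b1 _ => sum_congr rfl fun b2 _ => by ring
      have l4 : (∑ b ∈ C, w b * o G a2 b * (1 - o G b a1)) * y a1 = ∑ b1 ∈ C, ∑ b2 ∈ C,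
          w b1 * w b2 * (o G a1 b1 * o G a2 b2) * (1 - o G b2 a1) := by
        simp only [hy]
        rw [mul_comm, sum_mul_sum]
        exact sum_congr rfl fun b1 _ => sum_congr rfl fun b2 _ => by ring
      rw [l2, l3, l4, l1, ← sum_add_distrib, ← sum_add_distrib, ← sum_add_distrib]
      refine sum_le_sum fun b1 _ => ?_
      rw [← sum_add_distrib, ← sum_add_distrib, ← sum_add_distrib]
      refine sum_le_sum fun b2 _ => ?_
      have hq := quad G hG a1 a2 b1 b2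
      have hww : 0 ≤ w b1 * w b2 := mul_nonneg (hw b1) (hw b2)
      have := mul_le_mul_of_nonneg_left hq hww
      linarith
    have hlast : ∑ b1 ∈ C, ∑ b2 ∈ C, w b1 * w b2 *
        ((1 - nn G b1 b2) * (o G a1 b1 * o G b2 a1)) ≤ y a1 * y a2 * δ := by
      refine (half G w hw C a1).trans ?_
      have hCB : dI G w C ≤ dI G w B := dI_mono G w hw sdiff_subset
      have hss : s ^ 2 ≤ y a1 * y a2 := by
        rw [sq]
        exact mul_le_mul (hys a1 ha1) (hys a2 ha2) hs0.le y1.le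
      calc dI G w C / 2 ≤ dI G w B / 2 := by linarith
        _ = s ^ 2 * δ := by rw [hδ]; field_simp
        _ ≤ y a1 * y a2 * δ := by
          refine mul_le_mul_of_nonneg_right hss ?_
          rw [hδ]
          positivity
    have hyy : 0 < y a1 * y a2 := mul_pos y1 y2
    have hfin : y a1 * y a2 * 1 ≤
        y a1 * y a2 * ((1 - nn G a1 a2) + h a1 a2 + h a2 a1 + δ) := by
      have f1 : y a1 * y a2 * h a1 a2 = (∑ b ∈ C, w b * o G a1 b * (1 - o G b a2)) * y a2 := by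
        simp only [hh]
        field_simp
      have f2 : y a1 * y a2 * h a2 a1 = (∑ b ∈ C, w b * o G a2 b * (1 - o G b a1)) * y a1 := by
        simp only [hh]
        field_simp
      rw [mul_add, mul_add, mul_add, f1, f2]
      linarith
    exact le_of_mul_le_mul_left hfin hyy
  -- summation
  have hsum : W ^ 2 ≤ ∑ a1 ∈ X, ∑ a2 ∈ X, w a1 * w a2 * (1 - nn G a1 a2) +
      2 * ∑ a1 ∈ X, w a1 * (q a1 + m) + W ^ 2 * δ := by
    have s1 : W ^ 2 = ∑ a1 ∈ X, ∑ a2 ∈ X, w a1 * w a2 := by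
      rw [sq, hW, sum_mul_sum]
    have s2 : ∑ a1 ∈ X, ∑ a2 ∈ X, w a1 * w a2 ≤ ∑ a1 ∈ X, ∑ a2 ∈ X,
        w a1 * w a2 * ((1 - nn G a1 a2) + h a1 a2 + h a2 a1 + δ) := by
      refine sum_le_sum fun a1 ha1 => sum_le_sum fun a2 ha2 => ?_
      exact le_mul_of_one_le_right (mul_nonneg (hw a1) (hw a2)) (hpair a1 ha1 a2 ha2)
    have s3 : ∑ a1 ∈ X, ∑ a2 ∈ X, w a1 * w a2 * ((1 - nn G a1 a2) + h a1 a2 + h a2 a1 + δ) =
        ∑ a1 ∈ X, ∑ a2 ∈ X, w a1 * w a2 * (1 - nn G a1 a2) +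
        ∑ a1 ∈ X, ∑ a2 ∈ X, w a1 * w a2 * h a1 a2 +
        ∑ a1 ∈ X, ∑ a2 ∈ X, w a1 * w a2 * h a2 a1 + ∑ a1 ∈ X, ∑ a2 ∈ X, w a1 * w a2 * δ := by
      simp only [mul_add, sum_add_distrib]
    have s4 : ∑ a1 ∈ X, ∑ a2 ∈ X, w a1 * w a2 * h a2 a1 =
        ∑ a1 ∈ X, ∑ a2 ∈ X, w a1 * w a2 * h a1 a2 := by
      rw [sum_comm]
      exact sum_congr rfl fun x _ => sum_congr rfl fun z _ => by ring
    have s5 : ∑ a1 ∈ X, ∑ a2 ∈ X, w a1 * w a2 * h a1 a2 ≤ ∑ a1 ∈ X, w a1 * (q a1 + m) := by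
      refine sum_le_sum fun a1 ha1 => ?_
      have : ∑ a2 ∈ X, w a1 * w a2 * h a1 a2 = w a1 * ∑ a2 ∈ X, w a2 * h a1 a2 := by
        rw [mul_sum]
        exact sum_congr rfl fun z _ => by ring
      rw [this]
      exact mul_le_mul_of_nonneg_left (hsumh a1 ha1) (hw a1)
    have s6 : ∑ a1 ∈ X, ∑ a2 ∈ X, w a1 * w a2 * δ = W ^ 2 * δ := by
      rw [s1, sum_mul]
      exact sum_congr rfl fun x _ => by rw [sum_mul]
    rw [s1] at *
    linarith
  have hdI : ∑ a1 ∈ X, ∑ a2 ∈ X, w a1 * w a2 * (1 - nn G a1 a2) +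
      2 * ∑ a1 ∈ X, w a1 * q a1 ≤ dI G w A := by
    have hXA : X ⊆ A := filter_subset _ _
    have hp : ∀ u v, 0 ≤ w u * w v * (1 - nn G u v) := fun u v =>
      mul_nonneg (mul_nonneg (hw u) (hw v)) (sub_nonneg.2 (nn_le_one G u v))
    have d1 : dI G w A = (∑ u ∈ A \ X, ∑ v ∈ A \ X, w u * w v * (1 - nn G u v) +
        ∑ u ∈ A \ X, ∑ v ∈ X, w u * w v * (1 - nn G u v)) +
        (∑ u ∈ X, ∑ v ∈ A \ X, w u * w v * (1 - nn G u v) +
        ∑ u ∈ X, ∑ v ∈ X, w u * w v * (1 - nn G u v)) := by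
      unfold dI
      rw [← sum_sdiff hXA, ← sum_add_distrib, ← sum_add_distrib]
      congr 1 <;>
      · refine sum_congr rfl fun u _ => ?_
        rw [sum_sdiff hXA]
    have d2 : ∑ u ∈ A \ X, ∑ v ∈ X, w u * w v * (1 - nn G u v) =
        ∑ u ∈ X, ∑ v ∈ A \ X, w u * w v * (1 - nn G u v) := by
      rw [sum_comm]
      refine sum_congr rfl fun u _ => sum_congr rfl fun v _ => ?_
      rw [nn_symm G v u, mul_comm (w v) (w u)]
    have d3 : ∑ u ∈ X, ∑ v ∈ A \ X, w u * w v * (1 - nn G u v) = ∑ a1 ∈ X, w a1 * q a1 := by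
      refine sum_congr rfl fun u _ => ?_
      simp only [hq]
      rw [mul_sum]
      exact sum_congr rfl fun v _ => by ring
    have d4 : 0 ≤ ∑ u ∈ A \ X, ∑ v ∈ A \ X, w u * w v * (1 - nn G u v) :=
      sum_nonneg fun u _ => sum_nonneg fun v _ => hp u v
    rw [d1, d2, d3]
    linarith
  have hmain : W ^ 2 ≤ dI G w A + 2 * W * m + W ^ 2 * δ := by
    have : ∑ a1 ∈ X, w a1 * (q a1 + m) = ∑ a1 ∈ X, w a1 * q a1 + W * m := by
      simp only [mul_add, sum_add_distrib]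
      rw [hW, sum_mul]
    rw [this] at hsum
    linarith
  have hW2 : 0 < W ^ 2 := by positivity
  have hdiv : 1 ≤ dI G w A / W ^ 2 + 2 * m / W + δ := by
    have e : dI G w A / W ^ 2 + 2 * m / W + δ = (dI G w A + 2 * W * m + W ^ 2 * δ) / W ^ 2 := by
      field_simp
    rw [e, le_div_iff₀ hW2, one_mul]
    exact hmain
  have g1 : dI G w A / W ^ 2 ≤ dI G w A / τ ^ 2 := by
    apply div_le_div_of_nonneg_left hdA (by positivity)
    exact pow_le_pow_left₀ hτ.le hWτ 2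
  have g2 : 2 * m / W ≤ 2 * m / τ :=
    div_le_div_of_nonneg_left (by positivity) hτ hWτ
  have g3 : 1 - dI G w A / τ ^ 2 - 2 * m / τ ≤ δ := by linarith
  calc s ^ 2 * (1 - dI G w A / τ ^ 2 - 2 * m / τ) ≤ s ^ 2 * δ :=
        mul_le_mul_of_nonneg_left g3 (by positivity)
    _ = dI G w B / 2 := by rw [hδ]; field_simp

end Pool.Agent.W591.FF
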